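import Pool.Agent.Y976.TH.Iff
import Pool.Agent.TH972.U.SoTyp

/-!
# The lower bound for all inverse temperatures, and its consequences
-/

set_option autoImplicit false

namespace Pool.Agent.Y976.TH

open Filter Topology Pool.Agent.TH972 Pool.Agent.W842.RST

/-- the lower bound, uniformly over all inverse temperatures -/
theorem unif_low (ε η : ℝ) (hε : 0 < ε) (hη : 0 < η) :
    ∀ᶠ n : ℕ in atTop, ∀ b : ℝ, 0 ≤ b → 1 - η ≤ RSTRE.avg b n (fun T =>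
      pred n b * (n : ℝ) ^ (-ε) ≤ (T.diam : ℝ)) := by
  obtain ⟨e, he, he1, he2⟩ : ∃ e : ℝ, 0 < e ∧ 30 * e ≤ ε ∧ e ≤ 1 / 100 :=
    ⟨min (ε / 30) (1 / 100), lt_min (by linarith) (by norm_num),
      by linarith [min_le_left (ε / 30) (1 / 100)], min_le_right _ _⟩
  have hll : ∀ᶠ n : ℕ in atTop, 1 ≤ Real.log (Real.log n) :=
    (Real.tendsto_log_atTop.comp U.RegA.log_lim).eventually (eventually_ge_atTop 1)
  filter_upwards [unif e ε η he hε hη, U.soft_typ he he2, hll,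
    ge_eventually (U.RegA.log_lim.const_div_atTop 30) hη,
    U.RegA.log_lim.eventually (eventually_ge_atTop 1), eventually_ge_atTop 2]
    with n h1 h2 hll h3 hL hn2 b hb
  have hn1 : (1 : ℝ) < n := by exact_mod_cast hn2
  have hn0 : (0 : ℝ) < n := by linarith
  have key : Away e n b → 1 - η ≤ RSTRE.avg b n (fun T =>
      pred n b * (n : ℝ) ^ (-ε) ≤ (T.diam : ℝ)) :=
    fun h => (h1 b h).trans (avg_mono _ _ (fun T hT => hT.1))
  by_cases hc : b ≤ n * Real.log (Real.log n)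
  · exact key ⟨hb, Or.inl hc⟩
  · by_cases hc2 : (n : ℝ) ^ (1 + e) ≤ b
    · exact key ⟨hb, Or.inr hc2⟩
    · have hc' := not_le.1 hc
      have hc2' := not_le.1 hc2
      have hy1 : 1 / Real.log n ^ 3 ≤ b / n := by
        have e1 : 1 / Real.log n ^ 3 ≤ 1 := by
          rw [div_le_one (by positivity)]
          exact one_le_pow₀ hL
        have e2 : 1 ≤ b / n := by
          rw [le_div_iff₀ hn0]
          nlinarith
        linarith
      have hy2 : b / n ≤ (n : ℝ) ^ e := by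
        rw [div_le_iff₀ hn0]
        refine hc2'.le.trans (le_of_eq ?_)
        rw [add_comm, Real.rpow_add hn0, Real.rpow_one]
      have h4 := (h2 (b / n) hy1 hy2).2
      have hny : (n : ℝ) * (b / n) = b := by field_simp
      rw [hny, ← avg_eq] at h4
      refine h3.trans (h4.trans (avg_mono _ _ ?_))
      intro T hT
      refine le_trans ?_ hT
      calc pred n b * (n : ℝ) ^ (-ε) ≤ (n : ℝ) ^ (1 / 2 : ℝ) * (n : ℝ) ^ (-ε) :=
            mul_le_mul_of_nonneg_right (pred_le_half (by omega)) (by positivity)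
        _ = (n : ℝ) ^ (1 / 2 + -ε) := by rw [← Real.rpow_add hn0]
        _ ≤ (n : ℝ) ^ (1 / 2 - 30 * e) :=
            Real.rpow_le_rpow_of_exponent_le hn1.le (by linarith)

/-- a sequence with small diameter is not at high temperature -/
theorem ge_of_small {β : ℕ → ℝ} (hβ : ∀ n, 0 ≤ β n) {b : ℝ} (hb : b < 1 / 2)
    (h : Tendsto (fun n : ℕ => RSTRE.avg (β n) n (fun T => (T.diam : ℝ) ≤ (n : ℝ) ^ b))
      atTop (𝓝 1)) :
    ∃ c : ℝ, 0 < c ∧ ∀ᶠ n : ℕ in atTop, (n : ℝ) ^ (1 + c) ≤ β n := by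
  obtain ⟨ε, hε, hε2⟩ : ∃ ε : ℝ, 0 < ε ∧ 2 * ε ≤ 1 / 2 - b :=
    ⟨(1 / 2 - b) / 2, by linarith, by linarith⟩
  have h2 : Tendsto (fun n => RSTRE.avg (β n) n (fun T =>
      pred n (β n) * (n : ℝ) ^ (-ε) ≤ (T.diam : ℝ))) atTop (𝓝 1) := by
    rw [Metric.tendsto_atTop]
    intro η hη
    obtain ⟨N, hN⟩ := eventually_atTop.1 (unif_low ε (η / 2) hε (by linarith))
    refine ⟨N, fun n hn => ?_⟩
    have h1 := hN n hn (β n) (hβ n)
    have h2 := avg_le_one (β n) n (fun T => pred n (β n) * (n : ℝ) ^ (-ε) ≤ (T.diam : ℝ))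
    rw [Real.dist_eq, abs_lt]
    constructor <;> linarith
  refine ⟨2 * ε, by linarith, ?_⟩
  filter_upwards [both h h2, eventually_ge_atTop 2] with n hn hn2
  have hn1 : (1 : ℝ) < n := by exact_mod_cast hn2
  have hn0 : (0 : ℝ) < n := by linarith
  obtain ⟨T, h1, h3⟩ := hn
  have hpos : 0 < (n : ℝ) ^ ε := Real.rpow_pos_of_pos hn0 _
  have h4 : pred n (β n) ≤ (n : ℝ) ^ (b + ε) := by
    have h5 : pred n (β n) * (n : ℝ) ^ (-ε) ≤ (n : ℝ) ^ b := h3.trans h1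
    calc pred n (β n) = pred n (β n) * (n : ℝ) ^ (-ε) * (n : ℝ) ^ ε := by
          rw [mul_assoc, ← Real.rpow_add hn0, neg_add_cancel, Real.rpow_zero, mul_one]
      _ ≤ (n : ℝ) ^ b * (n : ℝ) ^ ε := mul_le_mul_of_nonneg_right h5 hpos.le
      _ = (n : ℝ) ^ (b + ε) := by rw [Real.rpow_add hn0]
  exact le_trans (Real.rpow_le_rpow_of_exponent_le hn1.le (by linarith))
    (ge_of_pred_le hn2 (by linarith) h4)

theorem away_of {β : ℕ → ℝ} (hβ : ∀ n, 0 ≤ β n) {c : ℝ}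
    (h : ∀ᶠ n : ℕ in atTop, (n : ℝ) ^ (1 + c) ≤ β n) : ∀ᶠ n in atTop, Away c n (β n) := by
  filter_upwards [h] with n h2
  exact ⟨hβ n, Or.inr h2⟩

theorem tend_mono {β : ℕ → ℝ} {A B : ∀ n : ℕ, SimpleGraph (Fin n) → Prop}
    (hAB : ∀ n T, A n T → B n T)
    (hA : Tendsto (fun n => RSTRE.avg (β n) n (A n)) atTop (𝓝 1)) :
    Tendsto (fun n => RSTRE.avg (β n) n (B n)) atTop (𝓝 1) :=
  tendsto_of_tendsto_of_tendsto_of_le_of_le hA tendsto_const_nhds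
    (fun n => avg_mono _ _ (hAB n)) (fun n => avg_le_one _ _ _)

/-- exponent `1/3` -/
theorem iff_third2 {β : ℕ → ℝ} (hβ : ∀ n, 0 ≤ β n) :
    HasDiam β (1 / 3) ↔ ∀ c : ℝ, 0 < c → ∀ᶠ n : ℕ in atTop, (n : ℝ) ^ (4 / 3 - c) ≤ β n := by
  refine ⟨fun h => ?_, low_temp_of⟩
  obtain ⟨c, hc, hc2⟩ := ge_of_small hβ (b := 1 / 3 + 1 / 12) (by norm_num)
    (tend_mono (fun n T hT => hT.2) (h (1 / 12) (by norm_num)))
  exact (iff_third hc (away_of hβ hc2)).1 h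

/-- the intermediate exponents -/
theorem iff_mid2 {β : ℕ → ℝ} (hβ0 : ∀ n, 0 ≤ β n) {γ : ℝ} (h0 : 0 < γ) (h3 : γ < 1 / 3) :
    HasDiam β (1 / 2 - γ / 2) ↔
      Tendsto (fun n : ℕ => Real.log (β n) / Real.log n) atTop (𝓝 (1 + γ)) := by
  constructor
  · intro h
    obtain ⟨c, hc, hc2⟩ := ge_of_small hβ0 (b := 1 / 2 - γ / 2 + γ / 4) (by linarith)
      (tend_mono (fun n T hT => hT.2) (h (γ / 4) (by linarith)))
    exact (iff_mid hc hβ0 (away_of hβ0 hc2) h0 h3).1 h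
  · intro h ε hε
    have h' := U.sharp_exp γ h0 h3 β hβ0 h ε hε
    have e : (1 - γ) / 2 = 1 / 2 - γ / 2 := by ring
    rw [e] at h'
    exact h'

theorem both_pt {n : ℕ} (hn : 1 ≤ n) {b : ℝ} {A B : SimpleGraph (Fin n) → Prop}
    (hA : 2 / 3 ≤ RSTRE.avg b n A) (hB : 2 / 3 ≤ RSTRE.avg b n B) : ∃ T, A T ∧ B T := by
  have : Nonempty (Fin n) := ⟨⟨0, by omega⟩⟩
  rw [avg_eq] at hA hB
  have h := avgw_inter (wexp_pos b) (wexp_meas b) (C := fun T => A T ∧ B T)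
    (fun T _ ha hb => ⟨ha, hb⟩) (a := 1 / 3) (b := 1 / 3) (by linarith) (by linarith)
  by_contra hcon
  push Not at hcon
  have := avg_false b n (fun T => A T ∧ B T) (fun T hT => hcon T hT.1 hT.2)
  rw [avg_eq] at this
  linarith

/-- exponent `1/2`: a necessary condition -/
theorem half_nec {β : ℕ → ℝ} (hβ : ∀ n, 0 ≤ β n) (h : HasDiam β (1 / 2)) (c : ℝ) (hc : 0 < c) :
    ∀ᶠ n : ℕ in atTop, β n ≤ (n : ℝ) ^ (1 + c) := by
  obtain ⟨ε, hε, hε1, hε2⟩ : ∃ ε : ℝ, 0 < ε ∧ 8 * ε ≤ c ∧ 24 * ε ≤ 1 :=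
    ⟨min (c / 8) (1 / 24), lt_min (by linarith) (by norm_num),
      by linarith [min_le_left (c / 8) (1 / 24)], by linarith [min_le_right (c / 8) (1 / 24)]⟩
  filter_upwards [(h ε hε).eventually (lt_mem_nhds (show (2 / 3 : ℝ) < 1 by norm_num)),
    unif c ε (1 / 3) hc hε (by norm_num), eventually_ge_atTop 2] with n h1 h2 hn2
  by_contra hcon
  have hcon' := (not_le.1 hcon).le
  have hn1 : (1 : ℝ) < n := by exact_mod_cast hn2
  have hn0 : (0 : ℝ) < n := by linarith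
  have h3 : 2 / 3 ≤ RSTRE.avg (β n) n (Near ε n (β n)) :=
    le_trans (by norm_num) (h2 (β n) ⟨hβ n, Or.inr hcon'⟩)
  obtain ⟨T, h4, h5⟩ := both_pt (by omega) h1.le h3
  have hpos : 0 < (n : ℝ) ^ ε := Real.rpow_pos_of_pos hn0 _
  have h6 : (n : ℝ) ^ (1 / 2 - ε - ε) ≤ pred n (β n) := by
    rw [Real.rpow_sub hn0, div_le_iff₀ hpos]
    exact h4.1.trans h5.2
  have h7 := le_of_pred_ge hn2 (by linarith) h6
  have h8 : (n : ℝ) ^ (2 - 2 * (1 / 2 - ε - ε)) ≤ (n : ℝ) ^ (1 + c) :=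
    Real.rpow_le_rpow_of_exponent_le hn1.le (by linarith)
  exact hcon (h7.trans h8)

/-- which sequences have intermediate exponents -/
theorem iff_window2 {β : ℕ → ℝ} (hβ : ∀ n, 0 ≤ β n) :
    (∃ a b : ℝ, 1 / 3 < a ∧ a ≤ b ∧ b < 1 / 2 ∧ Tendsto (fun n : ℕ => RSTRE.avg (β n) n (fun T =>
      (n : ℝ) ^ a ≤ (T.diam : ℝ) ∧ (T.diam : ℝ) ≤ (n : ℝ) ^ b)) atTop (𝓝 1)) ↔
    ∃ c : ℝ, 0 < c ∧ ∀ᶠ n : ℕ in atTop, (n : ℝ) ^ (1 + c) ≤ β n ∧ β n ≤ (n : ℝ) ^ (4 / 3 - c) := by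
  constructor
  · rintro ⟨a, b, ha, hab, hb, h⟩
    obtain ⟨c, hc, hc2⟩ := ge_of_small hβ hb (tend_mono (fun n T hT => hT.2) h)
    exact (iff_window hc (away_of hβ hc2)).1 ⟨a, b, ha, hab, hb, h⟩
  · rintro ⟨c, hc, h⟩
    exact (iff_window hc (away_of hβ (h.mono (fun n hn => hn.1)))).2 ⟨c, hc, h⟩

end Pool.Agent.Y976.TH
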