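import Pool.Agent.TH972.R3

/-!
# The low temperature regime, uniformly in the inverse temperature, with room at the boundary
-/

set_option autoImplicit false
set_option linter.unusedSectionVars false

namespace Pool.Agent.Y976.TH

open Finset MeasureTheory Pool.Agent.W842.RST Filter Topology Pool.Agent.TH972

theorem low_unif (ε : ℝ) (hε : 0 < ε) : ∃ δ : ℝ, 0 < δ ∧ δ ≤ ε / 6 ∧ δ ≤ 1 / 6 ∧
    ∀ᶠ n : ℕ in atTop, ∀ β : ℝ, (n : ℝ) ^ (4 / 3 - δ) ≤ β →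
      1 - 3000 / (n : ℝ) ^ δ ≤ RSTRE.avg β n (fun T =>
        (n : ℝ) ^ (1 / 3 - ε) ≤ (T.diam : ℝ) ∧ (T.diam : ℝ) ≤ (n : ℝ) ^ (1 / 3 + ε)) := by
  obtain ⟨δ, hδd⟩ : ∃ δ : ℝ, δ = min (ε / 6) (1 / 6) := ⟨_, rfl⟩
  have hδ : 0 < δ := by
    rw [hδd]
    exact lt_min (by linarith) (by norm_num)
  have hδ1 : δ ≤ ε / 6 := by rw [hδd]; exact min_le_left _ _
  have hδ2 : δ ≤ 1 / 6 := by rw [hδd]; exact min_le_right _ _
  refine ⟨δ, hδ, hδ1, hδ2, ?_⟩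
  have hpar := eventually_Par (γ := 1) (g := 1 / 3 - δ) (ε := δ) one_pos (by linarith) (by linarith) hδ
    (by linarith)
  filter_upwards [hpar, eventually_ge_atTop 1] with n P hn β hb
  have hn1 : (1 : ℝ) ≤ n := by exact_mod_cast hn
  have hn0 : (0 : ℝ) < n := by linarith
  rw [avg_eq]
  have hny : (n : ℝ) * (n : ℝ) ^ (1 / 3 - δ) ≤ β := by
    refine le_trans (le_of_eq ?_) hb
    conv_lhs => rw [← Real.rpow_one (n : ℝ), ← Real.rpow_mul hn0.le]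
    rw [← Real.rpow_add hn0]
    congr 1
    ring
  refine main_exp P hny _ ?_
  intro T h1 h2
  constructor
  · refine le_trans ?_ h1
    rw [← Real.rpow_sub hn0]
    exact Real.rpow_le_rpow_of_exponent_le hn1 (by linarith)
  · refine h2.trans ?_
    have e1 : (n : ℝ) * ((n : ℝ) ^ δ) ^ 4 / ((n : ℝ) ^ (1 / 3 - δ)) ^ 2 =
        (n : ℝ) ^ (1 + δ * 4 - (1 / 3 - δ) * 2) := by
      have a1 : ((n : ℝ) ^ δ) ^ 4 = (n : ℝ) ^ (δ * 4) := by
        rw [← Real.rpow_natCast, ← Real.rpow_mul hn0.le]; norm_num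
      have a2 : ((n : ℝ) ^ (1 / 3 - δ)) ^ 2 = (n : ℝ) ^ ((1 / 3 - δ) * 2) := by
        rw [← Real.rpow_natCast, ← Real.rpow_mul hn0.le]; norm_num
      rw [a1, a2, Real.rpow_sub hn0, Real.rpow_add hn0, Real.rpow_one]
    rw [e1]
    exact Real.rpow_le_rpow_of_exponent_le hn1 (by linarith)

end Pool.Agent.Y976.TH
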