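import Pool.Agent.TH972.U.RegA

/-!
# The high temperature regime, uniformly in the inverse temperature
-/

set_option autoImplicit false

namespace Pool.Agent.Y976.TH

open Finset MeasureTheory Pool.Agent.W842.RST Filter Topology Pool.Agent.TH972
  Pool.Agent.TH972.U

theorem high_unif (ε : ℝ) (hε : 0 < ε) :
    ∀ᶠ n : ℕ in atTop, ∀ β : ℝ, 0 ≤ β → β ≤ n * Real.log (Real.log n) →
      1 - 3 / Real.log (n : ℝ) ≤ RSTRE.avg β n (fun T =>
        (n : ℝ) ^ (1 / 2 - ε) ≤ (T.diam : ℝ) ∧ (T.diam : ℝ) ≤ (n : ℝ) ^ (1 / 2 + ε)) := by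
  filter_upwards [region_A hε, region_B, eventually_ge_atTop 2,
    RegA.pow_ev (a := ε) (b := 0) hε 1 1 le_rfl, RegA.pow_ev (a := ε) (b := 0) hε 1 3 le_rfl]
    with n hA hB hn hp1 hp3 β hb0 hb
  have hn0 : (0 : ℝ) < n := by
    have : 0 < n := by omega
    exact_mod_cast this
  have hn1 : (1 : ℝ) < n := by
    have : 1 < n := by omega
    exact_mod_cast this
  have hlog : 0 < Real.log n := Real.log_pos hn1
  rw [avg_eq]
  by_cases hc : β ≤ n / Real.log n ^ 3
  · have h := hB β hb0 hc
    have h23 : 1 - 3 / Real.log (n : ℝ) ≤ 1 - 2 / Real.log n := by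
      have : (2 : ℝ) / Real.log n ≤ 3 / Real.log n :=
        div_le_div_of_nonneg_right (by norm_num) hlog.le
      linarith
    refine h23.trans (h.trans (avgw_mono (wexp_pos _) (wexp_meas _) ?_))
    rintro T _ ⟨h1, h2⟩
    rw [one_mul, pow_one] at hp1
    rw [one_mul] at hp3
    constructor
    · refine le_trans ?_ h1
      rw [Real.sqrt_eq_rpow, le_div_iff₀ hlog, Real.rpow_sub hn0]
      have hpos : 0 < (n : ℝ) ^ ε := by positivity
      rw [div_mul_eq_mul_div, div_le_iff₀ hpos]
      exact mul_le_mul_of_nonneg_left hp1 (by positivity)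
    · refine h2.trans ?_
      rw [Real.sqrt_eq_rpow, Real.rpow_add hn0]
      exact mul_le_mul_of_nonneg_left hp3 (by positivity)
  · have hc' := not_le.1 hc
    have hy1 : 1 / Real.log n ^ 3 ≤ β / n := by
      rw [le_div_iff₀ hn0, one_div_mul_eq_div]
      exact hc'.le
    have hy2 : β / n ≤ Real.log (Real.log n) := by
      rw [div_le_iff₀ hn0]
      linarith
    have h := hA (β / n) hy1 hy2
    have e : (n : ℝ) * (β / n) = β := by field_simp
    rw [e] at h
    exact h

end Pool.Agent.Y976.TH
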