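import Pool.Agent.Y976.TH.Stm

/-!
# Elementary bounds for the prediction
-/

set_option autoImplicit false

namespace Pool.Agent.Y976.TH

variable {n : ℕ} {β s : ℝ}

theorem mx_pos : 0 < max 1 (β / (n : ℝ)) := lt_of_lt_of_le one_pos (le_max_left _ _)

theorem third_le : (n : ℝ) ^ (1 / 3 : ℝ) ≤ pred n β := le_max_left _ _

theorem sqrt_le : Real.sqrt (n / max 1 (β / n)) ≤ pred n β := le_max_right _ _

theorem rpow_half (hn : 1 ≤ n) (a : ℝ) : (n : ℝ) ^ (a / 2) = Real.sqrt ((n : ℝ) ^ a) := by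
  have hn0 : (0 : ℝ) ≤ n := Nat.cast_nonneg _
  rw [Real.sqrt_eq_rpow, ← Real.rpow_mul hn0]
  congr 1
  ring

theorem pred_ge (hn : 1 ≤ n) (h : max 1 (β / n) ≤ (n : ℝ) ^ s) :
    (n : ℝ) ^ ((1 - s) / 2) ≤ Real.sqrt (n / max 1 (β / n)) := by
  have hn0 : (0 : ℝ) < n := by exact_mod_cast hn
  rw [rpow_half hn]
  apply Real.sqrt_le_sqrt
  rw [Real.rpow_sub hn0, Real.rpow_one]
  exact div_le_div_of_nonneg_left hn0.le mx_pos h

theorem pred_le (hn : 1 ≤ n) (h : (n : ℝ) ^ s ≤ max 1 (β / n)) :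
    Real.sqrt (n / max 1 (β / n)) ≤ (n : ℝ) ^ ((1 - s) / 2) := by
  have hn0 : (0 : ℝ) < n := by exact_mod_cast hn
  rw [rpow_half hn]
  apply Real.sqrt_le_sqrt
  rw [Real.rpow_sub hn0, Real.rpow_one]
  exact div_le_div_of_nonneg_left hn0.le (Real.rpow_pos_of_pos hn0 _) h

theorem pred_le_half (hn : 1 ≤ n) : pred n β ≤ (n : ℝ) ^ (1 / 2 : ℝ) := by
  have hn1 : (1 : ℝ) ≤ n := by exact_mod_cast hn
  refine max_le (Real.rpow_le_rpow_of_exponent_le hn1 (by norm_num)) ?_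
  have h : (n : ℝ) ^ (0 : ℝ) ≤ max 1 (β / n) := by
    rw [Real.rpow_zero]; exact le_max_left _ _
  have := pred_le hn h
  rwa [sub_zero] at this

/-- a converse: a lower bound above `n ^ (1/3)` for the prediction bounds `β` from above -/
theorem le_of_pred_ge (hn : 2 ≤ n) {a : ℝ} (ha : 1 / 3 < a) (h : (n : ℝ) ^ a ≤ pred n β) :
    β ≤ (n : ℝ) ^ (2 - 2 * a) := by
  have hn1 : (1 : ℝ) < n := by exact_mod_cast hn
  have hn0 : (0 : ℝ) < n := by linarith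
  have h1 : (n : ℝ) ^ a ≤ Real.sqrt (n / max 1 (β / n)) := by
    rcases le_max_iff.1 h with h | h
    · exact absurd h (not_le.2 (Real.rpow_lt_rpow_of_exponent_lt hn1 ha))
    · exact h
  have h2 : ((n : ℝ) ^ a) ^ 2 ≤ n / max 1 (β / n) := by
    rw [← Real.sq_sqrt (show (0 : ℝ) ≤ n / max 1 (β / n) from (div_pos hn0 mx_pos).le)]
    exact pow_le_pow_left₀ (by positivity) h1 2
  rw [le_div_iff₀ mx_pos] at h2
  have h3 : ((n : ℝ) ^ a) ^ 2 * (β / n) ≤ n :=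
    (mul_le_mul_of_nonneg_left (le_max_right _ _) (by positivity)).trans h2
  have e : ((n : ℝ) ^ a) ^ 2 = (n : ℝ) ^ (2 * a) := by
    rw [← Real.rpow_natCast, ← Real.rpow_mul hn0.le]
    congr 1
    push_cast; ring
  rw [e] at h3
  have h4 : β ≤ (n : ℝ) ^ 2 / (n : ℝ) ^ (2 * a) := by
    rw [le_div_iff₀ (Real.rpow_pos_of_pos hn0 _)]
    have h5 : (n : ℝ) ^ (2 * a) * (β / n) * n ≤ n * n := mul_le_mul_of_nonneg_right h3 hn0.le
    have h6 : (n : ℝ) ^ (2 * a) * (β / n) * n = β * (n : ℝ) ^ (2 * a) := by field_simp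
    rw [h6] at h5
    nlinarith
  refine h4.trans (le_of_eq ?_)
  rw [Real.rpow_sub hn0]
  norm_num

/-- a converse: an upper bound below `n ^ (1/2)` for the prediction bounds `β` from below -/
theorem ge_of_pred_le (hn : 2 ≤ n) {b : ℝ} (hb : b < 1 / 2) (h : pred n β ≤ (n : ℝ) ^ b) :
    (n : ℝ) ^ (2 - 2 * b) ≤ β := by
  have hn1 : (1 : ℝ) < n := by exact_mod_cast hn
  have hn0 : (0 : ℝ) < n := by linarith
  have h1 : Real.sqrt (n / max 1 (β / n)) ≤ (n : ℝ) ^ b := sqrt_le.trans h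
  have h2 : n / max 1 (β / n) ≤ ((n : ℝ) ^ b) ^ 2 := by
    rw [← Real.sq_sqrt (show (0 : ℝ) ≤ n / max 1 (β / n) from (div_pos hn0 mx_pos).le)]
    exact pow_le_pow_left₀ (Real.sqrt_nonneg _) h1 2
  have e : ((n : ℝ) ^ b) ^ 2 = (n : ℝ) ^ (2 * b) := by
    rw [← Real.rpow_natCast, ← Real.rpow_mul hn0.le]
    congr 1
    push_cast; ring
  rw [e, div_le_iff₀ mx_pos] at h2
  have hlt : (n : ℝ) ^ (2 * b) * 1 < n := by
    rw [mul_one]
    conv_rhs => rw [← Real.rpow_one (n : ℝ)]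
    exact Real.rpow_lt_rpow_of_exponent_lt hn1 (by linarith)
  have h3 : (n : ℝ) ≤ (n : ℝ) ^ (2 * b) * (β / n) := by
    rcases le_total 1 (β / (n : ℝ)) with h | h
    · rwa [max_eq_right h] at h2
    · rw [max_eq_left h] at h2
      linarith
  have h4 : (n : ℝ) ^ 2 / (n : ℝ) ^ (2 * b) ≤ β := by
    rw [div_le_iff₀ (Real.rpow_pos_of_pos hn0 _)]
    have h5 : (n : ℝ) * n ≤ (n : ℝ) ^ (2 * b) * (β / n) * n := mul_le_mul_of_nonneg_right h3 hn0.le
    have h6 : (n : ℝ) ^ (2 * b) * (β / n) * n = β * (n : ℝ) ^ (2 * b) := by field_simp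
    rw [h6] at h5
    nlinarith
  refine le_trans (le_of_eq ?_) h4
  rw [Real.rpow_sub hn0]
  norm_num

/-- the prediction from bounds for `β` -/
theorem pred_ge_of (hn : 1 ≤ n) {c : ℝ} (hc : 1 ≤ c) (h : β ≤ (n : ℝ) ^ c) :
    (n : ℝ) ^ (1 - c / 2) ≤ pred n β := by
  have hn1 : (1 : ℝ) ≤ n := by exact_mod_cast hn
  have hn0 : (0 : ℝ) < n := by linarith
  refine le_trans ?_ sqrt_le
  have h1 : max 1 (β / n) ≤ (n : ℝ) ^ (c - 1) := by
    refine max_le (Real.one_le_rpow hn1 (by linarith)) ?_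
    rw [div_le_iff₀ hn0]
    refine h.trans (le_of_eq ?_)
    conv_rhs => rw [← Real.rpow_one (n : ℝ), ← Real.rpow_mul hn0.le]
    rw [← Real.rpow_add hn0]
    congr 1
    ring
  refine le_trans (le_of_eq ?_) (pred_ge hn h1)
  congr 1
  ring

theorem pred_le_of (hn : 1 ≤ n) {c d : ℝ} (h : (n : ℝ) ^ c ≤ β) (hd : 1 / 3 ≤ d)
    (hcd : 1 - c / 2 ≤ d) : pred n β ≤ (n : ℝ) ^ d := by
  have hn1 : (1 : ℝ) ≤ n := by exact_mod_cast hn
  have hn0 : (0 : ℝ) < n := by linarith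
  refine max_le (Real.rpow_le_rpow_of_exponent_le hn1 hd) ?_
  have h1 : (n : ℝ) ^ (c - 1) ≤ max 1 (β / n) := by
    refine le_trans ?_ (le_max_right _ _)
    rw [le_div_iff₀ hn0]
    refine le_trans (le_of_eq ?_) h
    conv_lhs => rw [← Real.rpow_one (n : ℝ), ← Real.rpow_mul hn0.le]
    rw [← Real.rpow_add hn0]
    congr 1
    ring
  refine (pred_le hn h1).trans (Real.rpow_le_rpow_of_exponent_le hn1 ?_)
  linarith

end Pool.Agent.Y976.TH
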