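import Pool.Agent.Y976.TH.Unif
import Pool.Agent.Y976.TH.Pred
import Pool.Agent.Y976.TH.Bd
import Pool.Agent.Y976.TH.High
import Pool.Agent.TH972.U.RsExp

/-!
# The uniform phase diagram
-/

set_option autoImplicit false

namespace Pool.Agent.Y976.TH

open Filter Topology Pool.Agent.TH972 Pool.Agent.W842.RST

theorem avg_mono (β : ℝ) (n : ℕ) {A B : SimpleGraph (Fin n) → Prop} (h : ∀ T, A T → B T) :
    RSTRE.avg β n A ≤ RSTRE.avg β n B := by
  rw [avg_eq, avg_eq]
  exact avgw_mono (wexp_pos _) (wexp_meas _) (fun T _ hA => h T hA)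

theorem avg_le_one (β : ℝ) (n : ℕ) (A : SimpleGraph (Fin n) → Prop) : RSTRE.avg β n A ≤ 1 := by
  rw [avg_eq]
  exact avgw_le_one (wexp_pos _) (wexp_meas _) _

/-- the middle regime, locally -/
theorem mid_local (ε δ η : ℝ) (hε : 0 < ε) (hδ : 0 < δ) (hη : 0 < η) (a : ℝ)
    (ha1 : 1 + δ ≤ a) (ha2 : a < 4 / 3) :
    ∃ ρ : ℝ, 0 < ρ ∧ ∀ᶠ n : ℕ in atTop, ∀ b ∈ Set.Ici (0 : ℝ),
      |Real.log b / Real.log n - a| < ρ → 1 - η ≤ RSTRE.avg b n (Near ε n b) := by
  have h0 : 0 < a - 1 := by linarith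
  have h3 : a - 1 < 1 / 3 := by linarith
  obtain ⟨ρ, hρ, h⟩ := local_unif (fun n b => Real.log b / Real.log n)
    (fun n b => RSTRE.avg b n (fun T =>
        (n : ℝ) ^ ((1 - (a - 1)) / 2 - ε / 2) ≤ (T.diam : ℝ) ∧
        (T.diam : ℝ) ≤ (n : ℝ) ^ ((1 - (a - 1)) / 2 + ε / 2))) (Set.Ici 0)
    (fun n => (n : ℝ) ^ a) a (fun n => by simp only [Set.mem_Ici]; positivity) (by
      apply tendsto_const_nhds.congr'
      filter_upwards [eventually_ge_atTop 2] with n hn
      have hn1 : (1 : ℝ) < n := by exact_mod_cast hn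
      have hL : 0 < Real.log n := Real.log_pos hn1
      rw [Real.log_rpow (by linarith)]
      field_simp) (by
      intro β hβ0 hβ
      have hβ' : Tendsto (fun n : ℕ => Real.log (β n) / Real.log n) atTop (𝓝 (1 + (a - 1))) := by
        have e : 1 + (a - 1) = a := by ring
        rw [e]; exact hβ
      exact U.sharp_exp (a - 1) h0 h3 β hβ0 hβ' (ε / 2) (by linarith)) η hη
  refine ⟨min ρ (min ε δ), lt_min hρ (lt_min hε hδ), ?_⟩
  filter_upwards [h, eventually_ge_atTop 2] with n hn hn2 b hb hba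
  refine (hn b hb (hba.trans_le (min_le_left _ _))).trans (avg_mono _ _ ?_)
  have hb1 : |Real.log b / Real.log n - a| < ε :=
    hba.trans_le ((min_le_right _ _).trans (min_le_left _ _))
  have hb2 : |Real.log b / Real.log n - a| < δ :=
    hba.trans_le ((min_le_right _ _).trans (min_le_right _ _))
  have hn1 : (1 : ℝ) < n := by exact_mod_cast hn2
  have hn0 : (0 : ℝ) < n := by linarith
  have hL : 0 < Real.log n := Real.log_pos hn1
  obtain ⟨t, ht⟩ : ∃ t, t = Real.log b / Real.log n := ⟨_, rfl⟩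
  rw [← ht, abs_lt] at hb1 hb2
  have ht1 : 1 < t := by linarith [hb2.1]
  have hlogb : Real.log b = t * Real.log n := by rw [ht]; field_simp
  have hbpos : 0 < b := by
    rcases (Set.mem_Ici.1 hb).eq_or_lt with h | h
    · rw [← h, Real.log_zero] at hlogb
      nlinarith
    · exact h
  have hbn : b = (n : ℝ) ^ t := by
    rw [Real.rpow_def_of_pos hn0, mul_comm, ← hlogb, Real.exp_log hbpos]
  rintro T ⟨h1, h2⟩
  constructor
  · refine le_trans ?_ h1
    have : pred n b ≤ (n : ℝ) ^ ((1 - (a - 1)) / 2 + ε / 2) :=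
      pred_le_of (by omega) (c := t) hbn.ge (by linarith) (by linarith)
    calc pred n b * (n : ℝ) ^ (-ε) ≤ (n : ℝ) ^ ((1 - (a - 1)) / 2 + ε / 2) * (n : ℝ) ^ (-ε) :=
          mul_le_mul_of_nonneg_right this (by positivity)
      _ = (n : ℝ) ^ ((1 - (a - 1)) / 2 - ε / 2) := by
          rw [← Real.rpow_add hn0]; congr 1; ring
  · refine h2.trans ?_
    have : (n : ℝ) ^ ((1 - (a - 1)) / 2 - ε / 2) ≤ pred n b := by
      refine le_trans (Real.rpow_le_rpow_of_exponent_le hn1.le ?_)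
        (pred_ge_of (by omega) ht1.le hbn.le)
      linarith
    calc (n : ℝ) ^ ((1 - (a - 1)) / 2 + ε / 2) =
          (n : ℝ) ^ ((1 - (a - 1)) / 2 - ε / 2) * (n : ℝ) ^ ε := by
          rw [← Real.rpow_add hn0]; congr 1; ring
      _ ≤ pred n b * (n : ℝ) ^ ε := mul_le_mul_of_nonneg_right this (by positivity)

theorem ge_eventually {u : ℕ → ℝ} (hu : Tendsto u atTop (𝓝 0)) {η : ℝ} (hη : 0 < η) :
    ∀ᶠ n in atTop, 1 - η ≤ 1 - u n := by
  filter_upwards [hu.eventually (gt_mem_nhds hη)] with n hn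
  linarith

theorem high_t (ε η : ℝ) (hε : 0 < ε) (hη : 0 < η) : ∃ δ : ℝ, 0 < δ ∧ δ ≤ 1 / 6 ∧
    ∀ᶠ n : ℕ in atTop, ∀ b : ℝ, (n : ℝ) ^ (4 / 3 - δ) ≤ b →
      1 - η ≤ RSTRE.avg b n (Near ε n b) := by
  obtain ⟨δ, hδ, hδ1, hδ2, h⟩ := low_unif (ε / 2) (by linarith)
  refine ⟨δ, hδ, hδ2, ?_⟩
  have hnδ : Tendsto (fun n : ℕ => (n : ℝ) ^ δ) atTop atTop :=
    (tendsto_rpow_atTop hδ).comp (tendsto_natCast_atTop_atTop (R := ℝ))
  filter_upwards [h, ge_eventually (hnδ.const_div_atTop 3000) hη, eventually_ge_atTop 1]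
    with n hn hn2 hn1 b hb
  refine hn2.trans ((hn b hb).trans (avg_mono _ _ ?_))
  have hn1' : (1 : ℝ) ≤ n := by exact_mod_cast hn1
  have hn0 : (0 : ℝ) < n := by linarith
  rintro T ⟨h1, h2⟩
  constructor
  · refine le_trans ?_ h1
    have : pred n b ≤ (n : ℝ) ^ (1 / 3 + ε / 2) :=
      pred_le_of hn1 (c := 4 / 3 - δ) hb (by linarith) (by linarith)
    calc pred n b * (n : ℝ) ^ (-ε) ≤ (n : ℝ) ^ (1 / 3 + ε / 2) * (n : ℝ) ^ (-ε) :=
          mul_le_mul_of_nonneg_right this (by positivity)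
      _ = (n : ℝ) ^ (1 / 3 - ε / 2) := by
          rw [← Real.rpow_add hn0]; congr 1; ring
  · refine h2.trans ?_
    calc (n : ℝ) ^ (1 / 3 + ε / 2) ≤ (n : ℝ) ^ (1 / 3 + ε) :=
          Real.rpow_le_rpow_of_exponent_le hn1' (by linarith)
      _ = (n : ℝ) ^ (1 / 3 : ℝ) * (n : ℝ) ^ ε := by rw [← Real.rpow_add hn0]
      _ ≤ pred n b * (n : ℝ) ^ ε := mul_le_mul_of_nonneg_right third_le (by positivity)

theorem low_b (ε η : ℝ) (hε : 0 < ε) (hη : 0 < η) :
    ∀ᶠ n : ℕ in atTop, ∀ b : ℝ, 0 ≤ b → b ≤ n * Real.log (Real.log n) →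
      1 - η ≤ RSTRE.avg b n (Near ε n b) := by
  filter_upwards [high_unif (ε / 2) (by linarith),
    ge_eventually (U.RegA.log_lim.const_div_atTop 3) hη, eventually_ge_atTop 3,
    U.RegA.pow_ev (a := ε) (b := 0) hε 1 1 le_rfl,
    U.RegA.log_lim.eventually (eventually_ge_atTop 1)] with n hn hn2 hn3 hp hL b hb0 hb
  refine hn2.trans ((hn b hb0 hb).trans (avg_mono _ _ ?_))
  have hn1' : (1 : ℝ) ≤ n := by
    have : 1 ≤ n := by omega
    exact_mod_cast this
  have hn0 : (0 : ℝ) < n := by linarith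
  have hb2 : b ≤ (n : ℝ) ^ (1 + ε) := by
    rw [Real.rpow_add hn0, Real.rpow_one]
    refine hb.trans (mul_le_mul_of_nonneg_left ?_ hn0.le)
    rw [one_mul, pow_one] at hp
    exact (Real.log_le_self (by linarith)).trans hp
  rintro T ⟨h1, h2⟩
  constructor
  · refine le_trans ?_ h1
    calc pred n b * (n : ℝ) ^ (-ε) ≤ (n : ℝ) ^ (1 / 2 : ℝ) * (n : ℝ) ^ (-ε) :=
          mul_le_mul_of_nonneg_right (pred_le_half (by omega)) (by positivity)
      _ = (n : ℝ) ^ (1 / 2 - ε) := by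
          rw [← Real.rpow_add hn0]; congr 1
      _ ≤ (n : ℝ) ^ (1 / 2 - ε / 2) := Real.rpow_le_rpow_of_exponent_le hn1' (by linarith)
  · refine h2.trans ?_
    have := pred_ge_of (n := n) (by omega) (c := 1 + ε) (by linarith) hb2
    calc (n : ℝ) ^ (1 / 2 + ε / 2) = (n : ℝ) ^ (1 - (1 + ε) / 2) * (n : ℝ) ^ ε := by
          rw [← Real.rpow_add hn0]; congr 1; ring
      _ ≤ pred n b * (n : ℝ) ^ ε := mul_le_mul_of_nonneg_right this (by positivity)

/-- the phase diagram, uniformly in the inverse temperature -/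
theorem unif (δ ε η : ℝ) (hδ : 0 < δ) (hε : 0 < ε) (hη : 0 < η) :
    ∀ᶠ n : ℕ in atTop, ∀ b : ℝ, Away δ n b → 1 - η ≤ RSTRE.avg b n (Near ε n b) := by
  obtain ⟨δ', hδ', _, hh⟩ := high_t ε η hε hη
  have hK := compact_unif (fun n b => Real.log b / Real.log n)
    (fun n b => RSTRE.avg b n (Near ε n b)) (Set.Ici 0) η (Set.Icc (1 + δ) (4 / 3 - δ'))
    isCompact_Icc (fun a ha => mid_local ε δ η hε hδ hη a ha.1 (by linarith [ha.2]))
  filter_upwards [hh, hK, low_b ε η hε hη, eventually_ge_atTop 2] with n h1 h2 h3 hn b hb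
  obtain ⟨hb0, hb | hb⟩ := hb
  · exact h3 b hb0 hb
  · by_cases hc : (n : ℝ) ^ (4 / 3 - δ') ≤ b
    · exact h1 b hc
    · have hn1 : (1 : ℝ) < n := by exact_mod_cast hn
      have hn0 : (0 : ℝ) < n := by linarith
      have hL : 0 < Real.log n := Real.log_pos hn1
      have hbpos : 0 < b := lt_of_lt_of_le (Real.rpow_pos_of_pos hn0 _) hb
      apply h2 b hb0
      constructor
      · rw [le_div_iff₀ hL, ← Real.log_rpow hn0]
        exact Real.log_le_log (Real.rpow_pos_of_pos hn0 _) hb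
      · rw [div_le_iff₀ hL, ← Real.log_rpow hn0]
        exact Real.log_le_log hbpos (not_le.1 hc).le

/-- the version for sequences -/
theorem tends (δ : ℝ) (hδ : 0 < δ) (β : ℕ → ℝ) (hβ : ∀ᶠ n in atTop, Away δ n (β n))
    (ε : ℝ) (hε : 0 < ε) :
    Tendsto (fun n => RSTRE.avg (β n) n (Near ε n (β n))) atTop (𝓝 1) := by
  rw [Metric.tendsto_atTop]
  intro η hη
  obtain ⟨N, hN⟩ := eventually_atTop.1 ((unif δ ε (η / 2) hδ hε (by linarith)).and hβ)
  refine ⟨N, fun n hn => ?_⟩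
  have h1 := (hN n hn).1 (β n) (hN n hn).2
  have h2 := avg_le_one (β n) n (Near ε n (β n))
  rw [Real.dist_eq, abs_lt]
  constructor <;> linarith

theorem avg_false (β : ℝ) (n : ℕ) (A : SimpleGraph (Fin n) → Prop) (h : ∀ T, ¬ A T) :
    RSTRE.avg β n A = 0 := by
  have e : ∀ U : Sym2 (Fin n) → ℝ, RSTRE.gibbs β U A = 0 := by
    intro U
    classical
    unfold RSTRE.gibbs
    have : Finset.univ.filter (fun T : SimpleGraph (Fin n) => T.IsTree ∧ A T) = ∅ := by
      ext T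
      simp only [Finset.mem_filter, Finset.mem_univ, true_and, Finset.notMem_empty, iff_false]
      exact fun hT => h T hT.2
    rw [this, Finset.sum_empty, zero_div]
  unfold RSTRE.avg
  simp_rw [e]
  simp

/-- two events with probabilities tending to one have a common tree for all large `n` -/
theorem both {β : ℕ → ℝ} {A B : ∀ n : ℕ, SimpleGraph (Fin n) → Prop}
    (hA : Tendsto (fun n => RSTRE.avg (β n) n (A n)) atTop (𝓝 1))
    (hB : Tendsto (fun n => RSTRE.avg (β n) n (B n)) atTop (𝓝 1)) :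
    ∀ᶠ n in atTop, ∃ T, A n T ∧ B n T := by
  have hA' : Tendsto (fun n => avgw (wexp (β n)) n (A n)) atTop (𝓝 1) := by
    simpa only [avg_eq] using hA
  have hB' : Tendsto (fun n => avgw (wexp (β n)) n (B n)) atTop (𝓝 1) := by
    simpa only [avg_eq] using hB
  have h := U.RsExp.inter_tendsto (w := fun n => wexp (β n)) (C := fun n T => A n T ∧ B n T)
    (fun n => wexp_pos (β n)) (fun n => wexp_meas (β n)) (fun n T _ ha hb => ⟨ha, hb⟩) hA' hB'
  filter_upwards [h.eventually (lt_mem_nhds (show (0 : ℝ) < 1 by norm_num))] with n hn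
  by_contra hcon
  push Not at hcon
  have := avg_false (β n) n (fun T => A n T ∧ B n T) (fun T hT => hcon T hT.1 hT.2)
  rw [avg_eq] at this
  linarith

end Pool.Agent.Y976.TH
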