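import Pool.Agent.Y976.TH.Core

/-!
# Necessary and sufficient conditions for the exponents
-/

set_option autoImplicit false

namespace Pool.Agent.Y976.TH

open Filter Topology Pool.Agent.TH972 Pool.Agent.W842.RST

/-- an event that has high probability compares the prediction with its bounds -/
theorem pred_bounds {δ : ℝ} (hδ : 0 < δ) {β : ℕ → ℝ} (hβ : ∀ᶠ n in atTop, Away δ n (β n))
    {a b ε : ℝ} (hε : 0 < ε)
    (h : Tendsto (fun n : ℕ => RSTRE.avg (β n) n (fun T =>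
      (n : ℝ) ^ a ≤ (T.diam : ℝ) ∧ (T.diam : ℝ) ≤ (n : ℝ) ^ b)) atTop (𝓝 1)) :
    ∀ᶠ n : ℕ in atTop, (n : ℝ) ^ (a - ε) ≤ pred n (β n) ∧ pred n (β n) ≤ (n : ℝ) ^ (b + ε) := by
  have h2 := tends δ hδ β hβ ε hε
  filter_upwards [both h h2, eventually_ge_atTop 1] with n hn hn1
  have hn0 : (0 : ℝ) < n := by exact_mod_cast hn1
  obtain ⟨T, ⟨h1, h2⟩, h3, h4⟩ := hn
  have hpos : 0 < (n : ℝ) ^ ε := Real.rpow_pos_of_pos hn0 _
  constructor
  · have h5 : (n : ℝ) ^ a ≤ pred n (β n) * (n : ℝ) ^ ε := h1.trans h4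
    rw [Real.rpow_sub hn0, div_le_iff₀ hpos]
    exact h5
  · have h5 : pred n (β n) * (n : ℝ) ^ (-ε) ≤ (n : ℝ) ^ b := h3.trans h2
    calc pred n (β n) = pred n (β n) * (n : ℝ) ^ (-ε) * (n : ℝ) ^ ε := by
          rw [mul_assoc, ← Real.rpow_add hn0, neg_add_cancel, Real.rpow_zero, mul_one]
      _ ≤ (n : ℝ) ^ b * (n : ℝ) ^ ε := mul_le_mul_of_nonneg_right h5 hpos.le
      _ = (n : ℝ) ^ (b + ε) := by rw [Real.rpow_add hn0]

theorem low_temp_of {β : ℕ → ℝ} (h : ∀ c : ℝ, 0 < c → ∀ᶠ n : ℕ in atTop,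
    (n : ℝ) ^ (4 / 3 - c) ≤ β n) : HasDiam β (1 / 3) := by
  intro ε hε
  obtain ⟨δ, hδ, _, _, hh⟩ := low_unif ε hε
  have hnδ : Tendsto (fun n : ℕ => (n : ℝ) ^ δ) atTop atTop :=
    (tendsto_rpow_atTop hδ).comp (tendsto_natCast_atTop_atTop (R := ℝ))
  have hlim : Tendsto (fun n : ℕ => 1 - 3000 / (n : ℝ) ^ δ) atTop (𝓝 1) := by
    have h2 := hnδ.const_div_atTop 3000
    simpa using (tendsto_const_nhds (x := (1 : ℝ))).sub h2
  refine tendsto_of_tendsto_of_tendsto_of_le_of_le' hlim tendsto_const_nhds ?_ ?_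
  · filter_upwards [hh, h δ hδ] with n hn hb
    exact hn (β n) hb
  · exact Filter.Eventually.of_forall (fun n => avg_le_one _ _ _)

theorem high_temp_of {β : ℕ → ℝ} (h : ∀ᶠ n : ℕ in atTop,
    0 ≤ β n ∧ β n ≤ n * Real.log (Real.log n)) : HasDiam β (1 / 2) := by
  intro ε hε
  have hlim : Tendsto (fun n : ℕ => 1 - 3 / Real.log (n : ℝ)) atTop (𝓝 1) := by
    have h1 : Tendsto (fun n : ℕ => 3 / Real.log (n : ℝ)) atTop (𝓝 0) :=
      U.RegA.log_lim.const_div_atTop 3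
    simpa using h1.const_sub 1
  refine tendsto_of_tendsto_of_tendsto_of_le_of_le' hlim tendsto_const_nhds ?_ ?_
  · filter_upwards [high_unif ε hε, h] with n hn hb
    exact hn (β n) hb.1 hb.2
  · exact Filter.Eventually.of_forall (fun n => avg_le_one _ _ _)

/-- exponent `1/3` -/
theorem iff_third {δ : ℝ} (hδ : 0 < δ) {β : ℕ → ℝ} (hβ : ∀ᶠ n in atTop, Away δ n (β n)) :
    HasDiam β (1 / 3) ↔ ∀ c : ℝ, 0 < c → ∀ᶠ n : ℕ in atTop, (n : ℝ) ^ (4 / 3 - c) ≤ β n := by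
  refine ⟨fun h c hc => ?_, low_temp_of⟩
  obtain ⟨ε, hε, hε1, hε2⟩ : ∃ ε : ℝ, 0 < ε ∧ 4 * ε ≤ c ∧ 4 * ε ≤ 1 / 6 :=
    ⟨min (c / 4) (1 / 24), lt_min (by linarith) (by norm_num),
      by linarith [min_le_left (c / 4) (1 / 24)], by linarith [min_le_right (c / 4) (1 / 24)]⟩
  filter_upwards [pred_bounds hδ hβ hε (h ε hε), eventually_ge_atTop 2] with n hn hn2
  have hn1 : (1 : ℝ) ≤ n := by
    have : 1 ≤ n := by omega
    exact_mod_cast this
  refine le_trans (Real.rpow_le_rpow_of_exponent_le hn1 ?_) (ge_of_pred_le hn2 ?_ hn.2)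
  · linarith
  · linarith

/-- exponent `1/2` -/
theorem iff_half {δ : ℝ} (hδ : 0 < δ) {β : ℕ → ℝ} (hβ : ∀ᶠ n in atTop, Away δ n (β n)) :
    HasDiam β (1 / 2) ↔ ∀ᶠ n : ℕ in atTop, β n ≤ n * Real.log (Real.log n) := by
  refine ⟨fun h => ?_, fun h => high_temp_of ?_⟩
  · obtain ⟨ε, hε, hε1, hε2⟩ : ∃ ε : ℝ, 0 < ε ∧ 8 * ε ≤ δ ∧ 24 * ε ≤ 1 :=
      ⟨min (δ / 8) (1 / 24), lt_min (by linarith) (by norm_num),
        by linarith [min_le_left (δ / 8) (1 / 24)], by linarith [min_le_right (δ / 8) (1 / 24)]⟩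
    filter_upwards [pred_bounds hδ hβ hε (h ε hε), hβ, eventually_ge_atTop 2] with n hn hA hn2
    have hn1 : (1 : ℝ) < n := by exact_mod_cast hn2
    rcases hA.2 with hA | hA
    · exact hA
    · exfalso
      have h1 := le_of_pred_ge hn2 (by linarith) hn.1
      have h2 : (n : ℝ) ^ (2 - 2 * (1 / 2 - ε - ε)) < (n : ℝ) ^ (1 + δ) :=
        Real.rpow_lt_rpow_of_exponent_lt hn1 (by linarith)
      linarith
  · filter_upwards [h, hβ] with n h1 h2
    exact ⟨h2.1, h1⟩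

/-- the intermediate exponents -/
theorem iff_mid {δ : ℝ} (hδ : 0 < δ) {β : ℕ → ℝ} (hβ0 : ∀ n, 0 ≤ β n)
    (hβ : ∀ᶠ n in atTop, Away δ n (β n)) {γ : ℝ} (h0 : 0 < γ) (h3 : γ < 1 / 3) :
    HasDiam β (1 / 2 - γ / 2) ↔
      Tendsto (fun n : ℕ => Real.log (β n) / Real.log n) atTop (𝓝 (1 + γ)) := by
  constructor
  · intro h
    rw [Metric.tendsto_atTop]
    intro c hc
    obtain ⟨ε, hε, hε1, hε2, hε3⟩ : ∃ ε : ℝ, 0 < ε ∧ 8 * ε ≤ c ∧ 8 * ε ≤ γ ∧
        8 * ε ≤ 1 / 3 - γ := by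
      refine ⟨min (c / 8) (min (γ / 8) ((1 / 3 - γ) / 8)),
        lt_min (by linarith) (lt_min (by linarith) (by linarith)), ?_, ?_, ?_⟩
      · linarith [min_le_left (c / 8) (min (γ / 8) ((1 / 3 - γ) / 8))]
      · linarith [(min_le_right (c / 8) (min (γ / 8) ((1 / 3 - γ) / 8))).trans (min_le_left _ _)]
      · linarith [(min_le_right (c / 8) (min (γ / 8) ((1 / 3 - γ) / 8))).trans (min_le_right _ _)]
    obtain ⟨N, hN⟩ := eventually_atTop.1 (pred_bounds hδ hβ hε (h ε hε))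
    refine ⟨max N 2, fun n hn => ?_⟩
    have hnN := hN n ((le_max_left _ _).trans hn)
    have hn2 : 2 ≤ n := (le_max_right _ _).trans hn
    have hn1 : (1 : ℝ) < n := by exact_mod_cast hn2
    have hn0 : (0 : ℝ) < n := by linarith
    have hL : 0 < Real.log n := Real.log_pos hn1
    have h1 := le_of_pred_ge hn2 (by linarith) hnN.1
    have h2 := ge_of_pred_le hn2 (by linarith) hnN.2
    have hb : 0 < β n := lt_of_lt_of_le (Real.rpow_pos_of_pos hn0 _) h2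
    have h1' := Real.log_le_log hb h1
    have h2' := Real.log_le_log (Real.rpow_pos_of_pos hn0 _) h2
    rw [Real.log_rpow hn0] at h1' h2'
    rw [Real.dist_eq, abs_lt]
    have h1'' : Real.log (β n) / Real.log n ≤ 2 - 2 * (1 / 2 - γ / 2 - ε - ε) := by
      rwa [div_le_iff₀ hL]
    have h2'' : 2 - 2 * (1 / 2 - γ / 2 + ε + ε) ≤ Real.log (β n) / Real.log n := by
      rwa [le_div_iff₀ hL]
    constructor <;> linarith
  · intro h ε hε
    have h' := U.sharp_exp γ h0 h3 β hβ0 h ε hε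
    have e : (1 - γ) / 2 = 1 / 2 - γ / 2 := by ring
    rw [e] at h'
    exact h'

/-- a uniform statement for the intermediate regime -/
theorem mid_unif {c η : ℝ} (hc : 0 < c) (hη : 0 < η) :
    ∀ᶠ n : ℕ in atTop, ∀ b : ℝ, (n : ℝ) ^ (1 + c) ≤ b → b ≤ (n : ℝ) ^ (4 / 3 - c) →
      1 - η ≤ RSTRE.avg b n (fun T => (n : ℝ) ^ (1 / 3 + c / 4) ≤ (T.diam : ℝ) ∧
        (T.diam : ℝ) ≤ (n : ℝ) ^ (1 / 2 - c / 4)) := by
  filter_upwards [unif c (c / 4) η hc (by linarith) hη, eventually_ge_atTop 2] with n hn hn2 b h1 h2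
  have hn1 : (1 : ℝ) < n := by exact_mod_cast hn2
  have hn0 : (0 : ℝ) < n := by linarith
  have hc6 : c ≤ 1 / 6 := by
    have h3 := h1.trans h2
    have h4 := (Real.rpow_le_rpow_left_iff hn1).1 h3
    linarith
  have hb0 : 0 ≤ b := le_trans (Real.rpow_pos_of_pos hn0 _).le h1
  refine (hn b ⟨hb0, Or.inr h1⟩).trans (avg_mono _ _ ?_)
  rintro T ⟨h3, h4⟩
  constructor
  · refine le_trans ?_ h3
    have := pred_ge_of (n := n) (by omega) (c := 4 / 3 - c) (by linarith) h2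
    calc (n : ℝ) ^ (1 / 3 + c / 4) = (n : ℝ) ^ (1 - (4 / 3 - c) / 2) * (n : ℝ) ^ (-(c / 4)) := by
          rw [← Real.rpow_add hn0]; congr 1; ring
      _ ≤ _ := mul_le_mul_of_nonneg_right this (by positivity)
  · refine h4.trans ?_
    have := pred_le_of (n := n) (by omega) (c := 1 + c) (d := 1 - (1 + c) / 2) h1 (by linarith) le_rfl
    calc pred n b * (n : ℝ) ^ (c / 4) ≤ (n : ℝ) ^ (1 - (1 + c) / 2) * (n : ℝ) ^ (c / 4) :=
          mul_le_mul_of_nonneg_right this (by positivity)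
      _ = (n : ℝ) ^ (1 / 2 - c / 4) := by
          rw [← Real.rpow_add hn0]; congr 1; ring

/-- which sequences have intermediate exponents -/
theorem iff_window {δ : ℝ} (hδ : 0 < δ) {β : ℕ → ℝ} (hβ : ∀ᶠ n in atTop, Away δ n (β n)) :
    (∃ a b : ℝ, 1 / 3 < a ∧ a ≤ b ∧ b < 1 / 2 ∧ Tendsto (fun n : ℕ => RSTRE.avg (β n) n (fun T =>
      (n : ℝ) ^ a ≤ (T.diam : ℝ) ∧ (T.diam : ℝ) ≤ (n : ℝ) ^ b)) atTop (𝓝 1)) ↔
    ∃ c : ℝ, 0 < c ∧ ∀ᶠ n : ℕ in atTop, (n : ℝ) ^ (1 + c) ≤ β n ∧ β n ≤ (n : ℝ) ^ (4 / 3 - c) := by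
  constructor
  · rintro ⟨a, b, ha, _, hb, h⟩
    obtain ⟨ε, hε, hε1, hε2⟩ : ∃ ε : ℝ, 0 < ε ∧ 2 * ε ≤ a - 1 / 3 ∧ 2 * ε ≤ 1 / 2 - b :=
      ⟨min ((a - 1 / 3) / 2) ((1 / 2 - b) / 2), lt_min (by linarith) (by linarith),
        by linarith [min_le_left ((a - 1 / 3) / 2) ((1 / 2 - b) / 2)],
        by linarith [min_le_right ((a - 1 / 3) / 2) ((1 / 2 - b) / 2)]⟩
    refine ⟨2 * ε, by linarith, ?_⟩
    filter_upwards [pred_bounds hδ hβ hε h, eventually_ge_atTop 2] with n hn hn2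
    have hn1 : (1 : ℝ) ≤ n := by
      have : 1 ≤ n := by omega
      exact_mod_cast this
    constructor
    · exact le_trans (Real.rpow_le_rpow_of_exponent_le hn1 (by linarith))
        (ge_of_pred_le hn2 (by linarith) hn.2)
    · exact le_trans (le_of_pred_ge hn2 (by linarith) hn.1)
        (Real.rpow_le_rpow_of_exponent_le hn1 (by linarith))
  · rintro ⟨c, hc, h⟩
    have hc6 : c ≤ 1 / 6 := by
      obtain ⟨n, hn, hn2⟩ := (h.and (eventually_ge_atTop 2)).exists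
      have hn1 : (1 : ℝ) < n := by exact_mod_cast hn2
      have h4 := (Real.rpow_le_rpow_left_iff hn1).1 (hn.1.trans hn.2)
      linarith
    refine ⟨1 / 3 + c / 4, 1 / 2 - c / 4, by linarith, by linarith, by linarith, ?_⟩
    rw [Metric.tendsto_atTop]
    intro η hη
    obtain ⟨N, hN⟩ := eventually_atTop.1 ((mid_unif (η := η / 2) hc (by linarith)).and h)
    refine ⟨N, fun n hn => ?_⟩
    have h1 := (hN n hn).1 (β n) (hN n hn).2.1 (hN n hn).2.2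
    have h2 := avg_le_one (β n) n (fun T => (n : ℝ) ^ (1 / 3 + c / 4) ≤ (T.diam : ℝ) ∧
        (T.diam : ℝ) ≤ (n : ℝ) ^ (1 / 2 - c / 4))
    rw [Real.dist_eq, abs_lt]
    constructor <;> linarith

end Pool.Agent.Y976.TH
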