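import Pool.Agent.TH972.RDefs

/-!
# The predicted diameter
-/

set_option autoImplicit false

open Filter Topology Pool.Agent.TH972.RSTRE

namespace Pool.Agent.Y976.TH

/-- The predicted order of the diameter at inverse temperature `β ≥ 0`:
`max (n ^ (1/3), min (n ^ (1/2), n / √β))`, written as
`max (n ^ (1/3), √(n / max (1, β / n)))` to avoid a division by zero at `β = 0`. -/
noncomputable def pred (n : ℕ) (β : ℝ) : ℝ :=
  max ((n : ℝ) ^ (1 / 3 : ℝ)) (Real.sqrt (n / max 1 (β / n)))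

/-- The diameter of `T` is within a factor `n ^ ε` of the prediction. -/
def Near (ε : ℝ) (n : ℕ) (β : ℝ) (T : SimpleGraph (Fin n)) : Prop :=
  pred n β * (n : ℝ) ^ (-ε) ≤ (T.diam : ℝ) ∧ (T.diam : ℝ) ≤ pred n β * (n : ℝ) ^ ε

/-- The inverse temperatures `β ≥ 0` outside the window `(n log log n, n ^ (1 + δ))`. -/
def Away (δ : ℝ) (n : ℕ) (β : ℝ) : Prop :=
  0 ≤ β ∧ (β ≤ n * Real.log (Real.log n) ∨ (n : ℝ) ^ (1 + δ) ≤ β)

/-- The averaged probability of `n ^ (a - ε) ≤ diam ≤ n ^ (a + ε)` tends to one for all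
`ε > 0`, for the sequence `β` of inverse temperatures: `diam = n ^ (a + o(1))` with high
probability. -/
def HasDiam (β : ℕ → ℝ) (a : ℝ) : Prop :=
  ∀ ε : ℝ, 0 < ε → Tendsto (fun n : ℕ => avg (β n) n (fun T =>
    (n : ℝ) ^ (a - ε) ≤ (T.diam : ℝ) ∧ (T.diam : ℝ) ≤ (n : ℝ) ^ (a + ε))) atTop (𝓝 1)

end Pool.Agent.Y976.TH
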