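import Mathlib

/-!
# From sequences to neighbourhoods, uniformly
-/

set_option autoImplicit false

namespace Pool.Agent.Y976.TH

open Filter Topology

theorem local_unif (f P : ℕ → ℝ → ℝ) (S : Set ℝ) (d : ℕ → ℝ) (a : ℝ) (hdS : ∀ n, d n ∈ S)
    (hd : Tendsto (fun n => f n (d n)) atTop (𝓝 a))
    (h : ∀ β : ℕ → ℝ, (∀ n, β n ∈ S) → Tendsto (fun n => f n (β n)) atTop (𝓝 a) →
      Tendsto (fun n => P n (β n)) atTop (𝓝 1)) (η : ℝ) (hη : 0 < η) :
    ∃ ρ : ℝ, 0 < ρ ∧ ∀ᶠ n in atTop, ∀ b ∈ S, |f n b - a| < ρ → 1 - η ≤ P n b := by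
  by_contra hcon
  have hf : ∀ k : ℕ, ∃ᶠ n in atTop, ∃ b, b ∈ S ∧ |f n b - a| < 1 / ((k : ℝ) + 1) ∧
      P n b < 1 - η := by
    intro k
    intro hk
    apply hcon
    refine ⟨1 / ((k : ℝ) + 1), by positivity, ?_⟩
    filter_upwards [hk] with n hn b hbS hb
    by_contra hlt
    exact hn ⟨b, hbS, hb, not_le.1 hlt⟩
  obtain ⟨φ, hφ, hb⟩ := Filter.extraction_forall_of_frequently hf
  choose b hbS hb1 hb2 using hb
  obtain ⟨β, hβ⟩ : ∃ β : ℕ → ℝ, β = Function.extend φ b d := ⟨_, rfl⟩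
  have hβφ : ∀ k, β (φ k) = b k := fun k => by
    rw [hβ]; exact hφ.injective.extend_apply b d k
  have hβS : ∀ n, β n ∈ S := by
    intro n
    by_cases hn : ∃ k, φ k = n
    · obtain ⟨k, rfl⟩ := hn
      rw [hβφ]; exact hbS k
    · rw [hβ, Function.extend_apply' _ _ _ hn]; exact hdS n
  have ht : Tendsto (fun n => f n (β n)) atTop (𝓝 a) := by
    rw [Metric.tendsto_atTop] at hd ⊢
    intro ε hε
    obtain ⟨N, hN⟩ := hd ε hε
    obtain ⟨K, hK⟩ := exists_nat_one_div_lt hε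
    refine ⟨max N (φ K), fun n hn => ?_⟩
    by_cases hn' : ∃ k, φ k = n
    · obtain ⟨k, rfl⟩ := hn'
      have hk : K ≤ k := by
        have := (le_max_right N (φ K)).trans hn
        exact hφ.le_iff_le.1 this
      rw [hβφ, Real.dist_eq]
      refine (hb1 k).trans_le ?_
      refine le_trans ?_ hK.le
      apply one_div_le_one_div_of_le (by positivity)
      have : (K : ℝ) ≤ k := by exact_mod_cast hk
      linarith
    · have e : β n = d n := by rw [hβ, Function.extend_apply' _ _ _ hn']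
      rw [e]
      exact hN n ((le_max_left _ _).trans hn)
  have h1 := h β hβS ht
  have h2 := h1.comp hφ.tendsto_atTop
  have h3 := h2.eventually (lt_mem_nhds (show 1 - η < 1 by linarith))
  obtain ⟨k, hk⟩ := h3.exists
  simp only [Function.comp] at hk
  rw [hβφ] at hk
  linarith [hb2 k]

/-- compactness -/
theorem compact_unif (f P : ℕ → ℝ → ℝ) (S : Set ℝ) (η : ℝ) (K : Set ℝ) (hK : IsCompact K)
    (h : ∀ a ∈ K, ∃ ρ : ℝ, 0 < ρ ∧ ∀ᶠ n in atTop, ∀ b ∈ S, |f n b - a| < ρ → 1 - η ≤ P n b) :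
    ∀ᶠ n in atTop, ∀ b ∈ S, f n b ∈ K → 1 - η ≤ P n b := by
  refine hK.induction_on (p := fun t => ∀ᶠ n in atTop, ∀ b ∈ S, f n b ∈ t → 1 - η ≤ P n b)
    ?_ ?_ ?_ ?_
  · exact Filter.Eventually.of_forall (fun n b _ hb => absurd hb (Set.notMem_empty _))
  · intro s t hst ht
    filter_upwards [ht] with n hn b hb hbs
    exact hn b hb (hst hbs)
  · intro s t hs ht
    filter_upwards [hs, ht] with n h1 h2 b hb hbs
    rcases hbs with hbs | hbs
    · exact h1 b hb hbs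
    · exact h2 b hb hbs
  · intro a ha
    obtain ⟨ρ, hρ, hn⟩ := h a ha
    refine ⟨Metric.ball a ρ, mem_nhdsWithin_of_mem_nhds (Metric.ball_mem_nhds a hρ), ?_⟩
    filter_upwards [hn] with n hn b hb hbs
    exact hn b hb (by rwa [Metric.mem_ball, Real.dist_eq] at hbs)

end Pool.Agent.Y976.TH
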